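import Pool.Agent.Helper99.SX.Fin1

/-!
# Packing unit regular simplices in the unit cube: a lower bound with base `2 + 2 log (3/2)`

For every `n ≥ 3` the unit cube `[0,1]^n` contains a packing of at least
`exp (-64 √n log (n+2)) · n! · √(2^n/(n+1)) / (2 + 2 log (3/2))^n` regular `n`-simplices of edge `1`
(the volume upper bound is `n! · √(2^n/(n+1))`, and `2 + 2 log (3/2) = 2.8109...`).
-/

open MeasureTheory Set
open scoped ENNReal symmDiff

namespace Pool.Agent.Results.MP_6c3b49_co.ClusterBound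

/-- The unit cube `[0,1]^n` in Euclidean `n`-space. -/
def unitCube (n : ℕ) : Set (EuclideanSpace ℝ (Fin n)) := {x | ∀ i, 0 ≤ x i ∧ x i ≤ 1}

/-- `S` is a regular `n`-simplex of edge `1` in Euclidean `n`-space: the convex hull of `n+1`
points whose pairwise distances all equal `1`. -/
def IsUnitRegularSimplex {n : ℕ} (S : Set (EuclideanSpace ℝ (Fin n))) : Prop :=
  ∃ v : Fin (n + 1) → EuclideanSpace ℝ (Fin n),
    (∀ i j, i ≠ j → dist (v i) (v j) = 1) ∧ S = convexHull ℝ (range v)

/-- There is a packing of `k` regular `n`-simplices of edge `1` in the unit cube: each is contained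
in the cube and their interiors are pairwise disjoint. The number `N(n)` of the problem is the
largest `k` with `Packable n k`. -/
def Packable (n k : ℕ) : Prop :=
  ∃ S : Fin k → Set (EuclideanSpace ℝ (Fin n)),
    (∀ i, IsUnitRegularSimplex (S i)) ∧ (∀ i, S i ⊆ unitCube n) ∧
      ∀ i j, i ≠ j → Disjoint (interior (S i)) (interior (S j))

lemma packable_of_fintype {n : ℕ} {ι : Type*} [Fintype ι] (S : ι → Set (EuclideanSpace ℝ (Fin n)))
    (h1 : ∀ i, IsUnitRegularSimplex (S i)) (h2 : ∀ i, S i ⊆ unitCube n)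
    (h3 : ∀ i j, i ≠ j → Disjoint (interior (S i)) (interior (S j))) :
    Packable n (Fintype.card ι) := by
  refine ⟨fun i => S ((Fintype.equivFin ι).symm i), fun i => h1 _, fun i => h2 _, fun i j hij => ?_⟩
  exact h3 _ _ fun h => hij ((Fintype.equivFin ι).symm.injective h)

open Pool.Agent.Helper99.SX in
lemma packable_clusters (m k q K : ℕ) (hn : 0 < m + k) (hq : 0 < q)
    (h : ENNReal.ofReal ((K - 1 : ℕ) * (C0 m k q * (3 / 2) ^ m)) <
      2 ^ m * volume (Icc (fun _ : Fin (m + k) => rho (m + k)) (fun _ => 1 - rho (m + k)))) :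
    Packable (m + k) (K * 2 ^ k) := by
  obtain ⟨x, N, hx, hN, hxx⟩ := exists_clusters m k q hn hq _ K h
  set F : Fin K × Finset (Fin k) → Finset (Fin (m + k)) := fun p => N p.1 ∪ p.2.map (Fin.natAddEmb m) with hF
  have hlow : ∀ p : Fin K × Finset (Fin k), ∀ i : Fin (m + k), (i : ℕ) < m → (i ∈ F p ↔ i ∈ N p.1) := by
    intro p i hi
    simp only [hF, Finset.mem_union, Finset.mem_map, Fin.natAddEmb_apply]
    constructor
    · rintro (h | ⟨j, _, rfl⟩)
      · exact h
      · simp at hi
    · exact fun h => Or.inl h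
  have htop : ∀ p : Fin K × Finset (Fin k), ∀ j : Fin k, (Fin.natAdd m j ∈ F p ↔ j ∈ p.2) := by
    intro p j
    simp only [hF, Finset.mem_union, Finset.mem_map, Fin.natAddEmb_apply]
    constructor
    · rintro (h | ⟨j', hj', h⟩)
      · have := (Finset.mem_filter.1 (Finset.mem_powerset.1 (hN p.1) h)).2
        simp at this
      · have : j' = j := by
          apply Fin.ext
          have := congrArg Fin.val h
          simpa using this
        exact this ▸ hj'
    · exact fun h => Or.inr ⟨j, h, rfl⟩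
  have hcard : Fintype.card (Fin K × Finset (Fin k)) = K * 2 ^ k := by
    rw [Fintype.card_prod, Fintype.card_fin, Fintype.card_finset, Fintype.card_fin]
  rw [← hcard]
  refine packable_of_fintype (fun p => convexHull ℝ (range (vtx (m + k) m (F p) (x p.1)))) ?_ ?_ ?_
  · intro p
    exact ⟨_, fun a b hab => dist_vtx (m + k) m hn (F p) (x p.1) a b hab, rfl⟩
  · intro p
    exact hull_coord (m + k) m (F p) (x p.1) (hx p.1)
  · have key : ∀ p p' : Fin K × Finset (Fin k), p.1 < p'.1 →
        Disjoint (interior (convexHull ℝ (range (vtx (m + k) m (F p) (x p.1)))))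
          (interior (convexHull ℝ (range (vtx (m + k) m (F p') (x p'.1))))) := by
      intro p p' hpp
      exact (disjoint_of_notMem (m + k) m (F p) (F p') (N p.1) (N p'.1) (hlow p) (hlow p') _ _
        (hxx p.1 p'.1 hpp)).mono interior_subset interior_subset
    intro p p' hpp
    rcases lt_trichotomy p.1 p'.1 with h | h | h
    · exact key p p' h
    · have hne : p.2 ≠ p'.2 := fun h2 => hpp (Prod.ext h h2)
      have : ∃ j, ¬ (j ∈ p.2 ↔ j ∈ p'.2) := by
        by_contra hcon
        push Not at hcon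
        exact hne (Finset.ext hcon)
      obtain ⟨j, hj⟩ := this
      show Disjoint (interior (convexHull ℝ (range (vtx (m + k) m (F p) (x p.1)))))
          (interior (convexHull ℝ (range (vtx (m + k) m (F p') (x p'.1)))))
      rw [h]
      apply disjoint_cluster (m + k) m hn (F p) (F p') (x p'.1) (Fin.natAdd m j) (by simp)
      unfold sg
      rw [if_congr (htop p j) rfl rfl, if_congr (htop p' j) rfl rfl]
      by_cases h1 : j ∈ p.2 <;> by_cases h2 : j ∈ p'.2
      · exact absurd (iff_of_true h1 h2) hj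
      · simp [h1, h2]
      · simp [h1, h2]
      · exact absurd (iff_of_false h1 h2) hj
    · exact (key p' p h).symm

lemma packable_one (n : ℕ) (hn : 3 ≤ n) : Packable n 1 := by
  set v : Fin (n + 1) → EuclideanSpace ℝ (Fin n) := fun a =>
    WithLp.toLp 2 ((fun _ => (1 / 2 : ℝ)) + Pool.Agent.Helper38.SX.u n a) with hv
  refine ⟨fun _ => convexHull ℝ (range v), fun _ => ⟨v, fun a b hab => ?_, rfl⟩, fun _ => ?_,
    fun i j hij => absurd (Subsingleton.elim i j) hij⟩
  · rw [EuclideanSpace.dist_eq]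
    have h1 : ∑ i, dist ((v a) i) ((v b) i) ^ 2 = 1 := by
      have h2 : ∀ i, dist ((v a) i) ((v b) i) ^ 2 =
          Pool.Agent.Helper38.SX.u n a i * Pool.Agent.Helper38.SX.u n a i -
          Pool.Agent.Helper38.SX.u n a i * Pool.Agent.Helper38.SX.u n b i -
          Pool.Agent.Helper38.SX.u n b i * Pool.Agent.Helper38.SX.u n a i +
          Pool.Agent.Helper38.SX.u n b i * Pool.Agent.Helper38.SX.u n b i := by
        intro i
        simp only [hv, Real.dist_eq, sq_abs, Pi.add_apply]
        ring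
      rw [Finset.sum_congr rfl fun i _ => h2 i, Finset.sum_add_distrib, Finset.sum_sub_distrib,
        Finset.sum_sub_distrib, Pool.Agent.Helper38.SX.u_inner, Pool.Agent.Helper38.SX.u_inner,
        Pool.Agent.Helper38.SX.u_inner, Pool.Agent.Helper38.SX.u_inner]
      rw [if_pos rfl, if_neg hab, if_neg hab.symm, if_pos rfl]
      have hn : (n : ℝ) + 1 ≠ 0 := by positivity
      field_simp
      ring
    rw [h1, Real.sqrt_one]
  · have hsq : 2 ≤ Real.sqrt ((n : ℝ) + 1) := by
      apply Real.le_sqrt_of_sq_le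
      have : (3 : ℝ) ≤ n := by exact_mod_cast hn
      linarith
    apply convexHull_min
    · rintro _ ⟨a, rfl⟩ i
      have h1 := Pool.Agent.Helper38.SX.abs_u_le n a i
      have h2 : 1 / Real.sqrt ((n : ℝ) + 1) ≤ 1 / 2 := one_div_le_one_div_of_le (by norm_num) hsq
      have h3 := abs_le.1 (h1.trans h2)
      simp only [hv, Pi.add_apply]
      constructor <;> linarith [h3.1, h3.2]
    · intro z hz w hw s t hs ht hst i
      have h1 := hz i
      have h2 := hw i
      simp only [PiLp.add_apply, PiLp.smul_apply, smul_eq_mul]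
      constructor
      · nlinarith [mul_nonneg hs h1.1, mul_nonneg ht h2.1]
      · nlinarith [mul_le_mul_of_nonneg_left h1.2 hs, mul_le_mul_of_nonneg_left h2.2 ht]

open Pool.Agent.Helper99.SX in
/-- **Main theorem.** -/
theorem result :
    ∀ n : ℕ, 3 ≤ n → ∃ k : ℕ, Packable n k ∧
      Real.exp (-(64 * Real.sqrt n * Real.log (n + 2))) *
        (n.factorial * Real.sqrt (2 ^ n / (n + 1))) / (2 + 2 * Real.log (3 / 2)) ^ n ≤ k := by
  intro n hn3
  rcases Nat.lt_or_ge n 4096 with hn | hn
  · refine ⟨1, packable_one n hn3, ?_⟩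
    have := final_small n (by omega) hn
    simpa using this
  obtain ⟨m, k, rfl, hf⟩ := factor_bound n (by omega)
  set q : ℕ := ⌈Real.sqrt (m + k : ℕ)⌉₊ with hq
  have hs0 : 0 < Real.sqrt (m + k : ℕ) := Real.sqrt_pos.2 (by exact_mod_cast (by omega : 0 < m + k))
  have hq1 : Real.sqrt (m + k : ℕ) ≤ q := Nat.le_ceil _
  have hq2 : (q : ℝ) ≤ Real.sqrt (m + k : ℕ) + 1 := (Nat.ceil_lt_add_one hs0.le).le
  have hq0 : 0 < q := Nat.ceil_pos.2 hs0
  have hr := rho_le (m + k) hn
  set t : ℝ := 2 ^ m * (1 - 2 * rho (m + k)) ^ (m + k) / (C0 m k q * (3 / 2) ^ m) with ht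
  have hC0 : 0 < C0 m k q := by
    unfold C0 Rad
    have h1 := Hs_nonneg m
    have h2 : 0 < (∏ i : Fin (m + k), wt m i)⁻¹ := inv_pos.2 (Finset.prod_pos fun i _ => wt_pos m i)
    positivity
  have hV : 0 < C0 m k q * (3 / 2) ^ m := by positivity
  have hnum : 0 ≤ (1 - 2 * rho (m + k)) ^ (m + k) := pow_nonneg (by linarith) _
  have ht0 : 0 ≤ t := by rw [ht]; positivity
  have hfin := final_large m k q hn hf hq1 hq2
  have hQ : volume (Icc (fun _ : Fin (m + k) => rho (m + k)) (fun _ => 1 - rho (m + k))) =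
      ENNReal.ofReal ((1 - 2 * rho (m + k)) ^ (m + k)) := by
    rw [Real.volume_Icc_pi]
    simp only [Finset.prod_const, Finset.card_univ, Fintype.card_fin]
    rw [← ENNReal.ofReal_pow (by linarith)]
    congr 2
    ring
  refine ⟨⌈t⌉₊ * 2 ^ k, ?_, ?_⟩
  · rcases Nat.eq_zero_or_pos ⌈t⌉₊ with h0 | h0
    · rw [h0, zero_mul]
      exact ⟨fun i => i.elim0, fun i => i.elim0, fun i => i.elim0, fun i => i.elim0⟩
    · apply packable_clusters m k q _ (by omega) hq0
      rw [hQ]
      have h1 : ((⌈t⌉₊ - 1 : ℕ) : ℝ) < t := by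
        have := Nat.ceil_lt_add_one ht0
        rw [Nat.cast_sub (by omega)]
        push_cast
        linarith
      have h2 : (2 : ℝ≥0∞) ^ m = ENNReal.ofReal (2 ^ m) := by
        rw [ENNReal.ofReal_pow (by norm_num)]
        norm_num
      rw [h2, ← ENNReal.ofReal_mul (by positivity)]
      have h3 : ((⌈t⌉₊ - 1 : ℕ) : ℝ) * (C0 m k q * (3 / 2) ^ m) <
          2 ^ m * (1 - 2 * rho (m + k)) ^ (m + k) := by
        rw [ht, lt_div_iff₀ hV] at h1
        exact h1
      refine (ENNReal.ofReal_lt_ofReal_iff_of_nonneg ?_).2 h3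
      positivity
  · calc Real.exp (-(64 * Real.sqrt (m + k : ℕ) * Real.log ((m + k : ℕ) + 2))) *
        ((m + k).factorial * Real.sqrt (2 ^ (m + k) / ((m + k : ℕ) + 1))) /
          (2 + 2 * Real.log (3 / 2)) ^ (m + k) ≤ t * 2 ^ k := hfin
      _ ≤ ((⌈t⌉₊ * 2 ^ k : ℕ) : ℝ) := by
          push_cast
          exact mul_le_mul_of_nonneg_right (Nat.le_ceil t) (by positivity)

end Pool.Agent.Results.MP_6c3b49_co.ClusterBound
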