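import Pool.Agent.Helper99.SX.Red

/-!
# Packing unit regular simplices in the unit cube: the cube plays no role

Up to a factor `exp (9 √(n log (n+1)))` the largest number `N(n)` of unit regular simplices packed in
the unit cube is the largest number of unit regular simplices per unit volume in packings of large
cubes.
-/

open MeasureTheory Set
open scoped ENNReal

namespace Pool.Agent.Results.MP_6c3b49_co.CubeReduction

/-- The cube `[0,L]^n` in Euclidean `n`-space. -/
def cube (n : ℕ) (L : ℝ) : Set (EuclideanSpace ℝ (Fin n)) := {x | ∀ i, 0 ≤ x i ∧ x i ≤ L}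

/-- `S` is a regular `n`-simplex of edge `1` in Euclidean `n`-space: the convex hull of `n+1`
points whose pairwise distances all equal `1`. -/
def IsUnitRegularSimplex {n : ℕ} (S : Set (EuclideanSpace ℝ (Fin n))) : Prop :=
  ∃ v : Fin (n + 1) → EuclideanSpace ℝ (Fin n),
    (∀ i j, i ≠ j → dist (v i) (v j) = 1) ∧ S = convexHull ℝ (range v)

/-- There is a packing of `k` regular `n`-simplices of edge `1` in the cube `[0,L]^n`: each is
contained in the cube and their interiors are pairwise disjoint. The number `N(n)` of the problem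
is the largest `k` with `Packable n 1 k`. -/
def Packable (n : ℕ) (L : ℝ) (k : ℕ) : Prop :=
  ∃ S : Fin k → Set (EuclideanSpace ℝ (Fin n)),
    (∀ i, IsUnitRegularSimplex (S i)) ∧ (∀ i, S i ⊆ cube n L) ∧
      ∀ i j, i ≠ j → Disjoint (interior (S i)) (interior (S j))

/-- Arbitrarily large cubes contain packings with at least `d` unit regular simplices per unit
volume. The upper limit `D(n)` of `N(n,L) / L^n`, where `N(n,L)` is the largest `k` with
`Packable n L k`, is the supremum of all such `d`. -/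
def HasDensity (n : ℕ) (d : ℝ) : Prop :=
  ∀ L₀ : ℝ, ∃ L : ℝ, L₀ ≤ L ∧ ∃ k : ℕ, Packable n L k ∧ d * L ^ n ≤ k

lemma packable_of_fintype {n : ℕ} {L : ℝ} {ι : Type*} [Fintype ι]
    (S : ι → Set (EuclideanSpace ℝ (Fin n)))
    (h1 : ∀ i, IsUnitRegularSimplex (S i)) (h2 : ∀ i, S i ⊆ cube n L)
    (h3 : ∀ i j, i ≠ j → Disjoint (interior (S i)) (interior (S j))) :
    Packable n L (Fintype.card ι) := by
  refine ⟨fun i => S ((Fintype.equivFin ι).symm i), fun i => h1 _, fun i => h2 _, fun i j hij => ?_⟩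
  exact h3 _ _ fun h => hij ((Fintype.equivFin ι).symm.injective h)

lemma convex_cube (n : ℕ) (L : ℝ) : Convex ℝ (cube n L) := by
  intro z hz w hw s t hs ht hst i
  have h1 := hz i
  have h2 := hw i
  simp only [PiLp.add_apply, PiLp.smul_apply, smul_eq_mul]
  constructor
  · nlinarith [mul_nonneg hs h1.1, mul_nonneg ht h2.1]
  · nlinarith [mul_le_mul_of_nonneg_left h1.2 hs, mul_le_mul_of_nonneg_left h2.2 ht]

lemma packable_zero (n : ℕ) (L : ℝ) : Packable n L 0 :=
  ⟨fun i => i.elim0, fun i => i.elim0, fun i => i.elim0, fun i => i.elim0⟩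

/-- an affine isometry maps unit regular simplices to unit regular simplices -/
lemma simplex_image {n : ℕ} {S : Set (EuclideanSpace ℝ (Fin n))} (hS : IsUnitRegularSimplex S)
    (f : EuclideanSpace ℝ (Fin n) ≃ᵃⁱ[ℝ] EuclideanSpace ℝ (Fin n)) : IsUnitRegularSimplex (f '' S) := by
  obtain ⟨v, hv, rfl⟩ := hS
  refine ⟨fun a => f (v a), fun i j hij => ?_, ?_⟩
  · rw [f.dist_map, hv i j hij]
  · have h := (f.toAffineEquiv : EuclideanSpace ℝ (Fin n) →ᵃ[ℝ] EuclideanSpace ℝ (Fin n)).image_convexHull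
      (range v)
    rw [← range_comp] at h
    exact h

lemma disjoint_image {n : ℕ} {S T : Set (EuclideanSpace ℝ (Fin n))}
    (h : Disjoint (interior S) (interior T))
    (f : EuclideanSpace ℝ (Fin n) ≃ᵃⁱ[ℝ] EuclideanSpace ℝ (Fin n)) :
    Disjoint (interior (f '' S)) (interior (f '' T)) := by
  have h1 : ∀ S : Set (EuclideanSpace ℝ (Fin n)), interior (f '' S) = f '' interior S := fun S =>
    (f.toHomeomorph.image_interior S).symm
  rw [h1, h1]
  exact (disjoint_image_iff f.injective).2 h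

open Pool.Agent.Helper99.SX in
/-- From a packing in a large cube to a packing in the unit cube. -/
lemma main (n : ℕ) (hn : 0 < n) (L : ℝ) (hL : 0 ≤ L) (k : ℕ) (hP : Packable n L k)
    (ht : 4 * Real.sqrt (Real.log (n + 1) / n) ≤ 1) :
    ∃ k' : ℕ, Packable n 1 k' ∧
      (k : ℝ) / 2 * (1 - 4 * Real.sqrt (Real.log (n + 1) / n)) ^ n / (L + Real.sqrt n) ^ n ≤ k' := by
  classical
  set t : ℝ := 4 * Real.sqrt (Real.log (n + 1) / n) with htdef
  obtain ⟨S, hS, hSL, hdis⟩ := hP
  choose v hv hvS using hS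
  have hvL : ∀ i a, v i a ∈ cube n L := fun i a =>
    hSL i (by rw [hvS i]; exact subset_convexHull ℝ _ (mem_range_self a))
  have hvd : ∀ i a b, ∑ l, (v i a l - v i b l) ^ 2 ≤ 1 := by
    intro i a b
    by_cases hab : a = b
    · subst hab
      simp
    · have h1 := hv i a b hab
      rw [EuclideanSpace.dist_eq, Real.sqrt_eq_one] at h1
      rw [← h1]
      exact le_of_eq (Finset.sum_congr rfl fun l _ => by rw [Real.dist_eq, sq_abs])
  obtain ⟨e, G, hG, hwid⟩ := exists_signs n hn (fun i a l => v i a l) hvd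
  set ρ := rot n hn e with hρ
  -- widths of the rotated simplices
  have hw : ∀ i ∈ G, ∀ j a b, ρ (v i a) j - ρ (v i b) j ≤ t := by
    intro i hi j a b
    have h1 := hwid i hi j a b
    have h2 : ρ (v i a) j - ρ (v i b) j = ∑ l, U n j l * (v i a l - v i b l) * sn (e l) := by
      rw [hρ, rot_apply, rot_apply, ← Finset.sum_sub_distrib]
      exact Finset.sum_congr rfl fun l _ => by ring
    rw [h2]
    exact h1
  have hmin : ∀ i j, ∃ a, ∀ b, ρ (v i a) j ≤ ρ (v i b) j := fun i j =>
    Finite.exists_min fun a => ρ (v i a) j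
  choose a0 ha0 using hmin
  set B : Fin k → Set (Eu n) := fun i =>
    box n (fun j => -(ρ (v i (a0 i j)) j)) (fun j => -(ρ (v i (a0 i j)) j) + (1 - t)) with hB
  set c : Eu n := WithLp.toLp 2 fun _ => (1 / 2 : ℝ) with hc
  set h : ℝ := Real.sqrt n / 2 with hh
  set cc : Eu n := ρ.symm c with hcc
  set Rg : Set (Eu n) := {x : Eu n | ρ.symm (c - x) ∈ box n (fun _ => -h) (fun _ => L + h)} with hRg
  have hV : 0 < L + Real.sqrt n := by
    have : 0 < Real.sqrt n := Real.sqrt_pos.2 (by exact_mod_cast hn)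
    linarith
  have hreg := volume_region n ρ c (fun _ => -h) (fun _ => L + h) (L + Real.sqrt n)
    (fun j => by rw [hh]; ring)
  have hfit : ∀ i ∈ G, ∀ x ∈ B i, ∀ a j, 0 ≤ x j + ρ (v i a) j ∧ x j + ρ (v i a) j ≤ 1 := by
    intro i hi x hx a j
    have h1 := hx j
    have h2 := ha0 i j a
    have h3 := hw i hi j a (a0 i j)
    simp only at h1
    constructor <;> linarith [h1.1, h1.2]
  have hBR : ∀ i ∈ G, B i ⊆ Rg := by
    intro i hi x hx j
    have h1 := hfit i hi x hx 0
    -- `ρ (v i 0) + x` lies in the unit cube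
    set y : Eu n := x + ρ (v i 0) - c with hy
    have h2 : ρ.symm (c - x) = v i 0 - ρ.symm y := by
      apply ρ.injective
      rw [ρ.apply_symm_apply, map_sub, ρ.apply_symm_apply, hy]
      abel
    have h3 : ‖y‖ ≤ h := by
      rw [EuclideanSpace.norm_eq, hh]
      rw [show Real.sqrt n / 2 = Real.sqrt (n / 4) by
        rw [Real.sqrt_div (Nat.cast_nonneg n), show (4 : ℝ) = 2 ^ 2 by norm_num,
          Real.sqrt_sq (by norm_num)]]
      apply Real.sqrt_le_sqrt
      have h4 : ∀ l, ‖y l‖ ^ 2 ≤ 1 / 4 := by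
        intro l
        have h5 := h1 l
        have h6 : y l = x l + ρ (v i 0) l - 1 / 2 := by simp [hy, hc]
        rw [Real.norm_eq_abs, sq_abs, h6]
        nlinarith [h5.1, h5.2]
      calc ∑ l, ‖y l‖ ^ 2 ≤ ∑ _l : Fin n, (1 / 4 : ℝ) := Finset.sum_le_sum fun l _ => h4 l
        _ = n / 4 := by
          rw [Finset.sum_const, Finset.card_univ, Fintype.card_fin, nsmul_eq_mul]
          ring
    have h4 : |(ρ.symm y) j| ≤ h := by
      have h5 := PiLp.norm_apply_le (ρ.symm y) j
      rw [Real.norm_eq_abs] at h5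
      rw [ρ.symm.norm_map] at h5
      exact h5.trans h3
    have h5 := abs_le.1 h4
    have h6 := hvL i 0 j
    rw [h2]
    simp only [PiLp.sub_apply]
    constructor <;> linarith [h5.1, h5.2, h6.1, h6.2]
  obtain ⟨x, G', hG'G, hxG', hcard⟩ := exists_many (volume : Measure (Eu n)) G B Rg
    (fun i _ => measurableSet_box n _ _) hreg.1 hBR ((1 - t) ^ n) ((L + Real.sqrt n) ^ n)
    (pow_pos hV n)
    (fun i _ => by
      rw [volume_box n _ _ (1 - t) (fun j => by ring), ENNReal.ofReal_pow (by linarith)])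
    (by rw [hreg.2, ENNReal.ofReal_pow hV.le])
  -- the packing
  set f : Eu n ≃ᵃⁱ[ℝ] Eu n := ρ.toAffineIsometryEquiv.trans (AffineIsometryEquiv.constVAdd ℝ (Eu n) x)
    with hf
  have hfa : ∀ p, f p = x + ρ p := fun p => rfl
  refine ⟨Fintype.card G', ?_, ?_⟩
  · refine packable_of_fintype (fun i : G' => f '' S i) (fun i => ?_) (fun i => ?_) fun i j hij => ?_
    · exact simplex_image ⟨v i, hv i, hvS i⟩ f
    · rw [hvS i]
      have h1 := (f.toAffineEquiv : Eu n →ᵃ[ℝ] Eu n).image_convexHull (range (v i))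
      rw [← range_comp] at h1
      have h2 : f '' convexHull ℝ (range (v i)) = convexHull ℝ (range (f ∘ v i)) := h1
      rw [h2]
      refine convexHull_min ?_ (convex_cube n 1)
      rintro _ ⟨a, rfl⟩ j
      show 0 ≤ (f (v i a)) j ∧ (f (v i a)) j ≤ 1
      rw [hfa]
      simp only [PiLp.add_apply]
      exact hfit i (hG'G i.2) x (hxG' i i.2) a j
    · exact disjoint_image (hdis i j fun hij' => hij (Subtype.ext hij')) f
  · rw [Fintype.card_coe]
    refine le_trans ?_ hcard
    refine div_le_div_of_nonneg_right ?_ (pow_pos hV n).le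
    exact mul_le_mul_of_nonneg_right hG (pow_nonneg (by linarith) n)

/-- translates of a packing of the unit cube -/
lemma packable_grid (n : ℕ) (hn : 0 < n) (k m : ℕ) (h : Packable n 1 k) :
    Packable n m (m ^ n * k) := by
  classical
  obtain ⟨S, hS, hS1, hdis⟩ := h
  have hcard : Fintype.card ((Fin n → Fin m) × Fin k) = m ^ n * k := by
    rw [Fintype.card_prod, Fintype.card_fun, Fintype.card_fin, Fintype.card_fin, Fintype.card_fin]
  rw [← hcard]
  set z : (Fin n → Fin m) → EuclideanSpace ℝ (Fin n) := fun a =>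
    WithLp.toLp 2 fun j => ((a j : ℕ) : ℝ) with hz
  set f : (Fin n → Fin m) → (EuclideanSpace ℝ (Fin n) ≃ᵃⁱ[ℝ] EuclideanSpace ℝ (Fin n)) := fun a =>
    AffineIsometryEquiv.constVAdd ℝ (EuclideanSpace ℝ (Fin n)) (z a) with hf
  have hfa : ∀ a p, f a p = z a + p := fun a p => rfl
  have hcoord : ∀ a (i : Fin k) (x : EuclideanSpace ℝ (Fin n)), x ∈ f a '' S i → ∀ j,
      ((a j : ℕ) : ℝ) ≤ x j ∧ x j ≤ ((a j : ℕ) : ℝ) + 1 := by
    rintro a i _ ⟨p, hp, rfl⟩ j
    have h1 := hS1 i hp j
    rw [hfa]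
    simp only [PiLp.add_apply, hz]
    constructor <;> linarith [h1.1, h1.2]
  refine packable_of_fintype (fun p => f p.1 '' S p.2) (fun p => simplex_image (hS p.2) _)
    (fun p x hx j => ?_) fun p q hpq => ?_
  · have h1 := hcoord p.1 p.2 x hx j
    have h2 : ((p.1 j : ℕ) : ℝ) + 1 ≤ m := by exact_mod_cast (p.1 j).2
    exact ⟨(Nat.cast_nonneg _).trans h1.1, h1.2.trans h2⟩
  · by_cases h1 : p.1 = q.1
    · have h2 : p.2 ≠ q.2 := fun h2 => hpq (Prod.ext h1 h2)
      show Disjoint (interior (f p.1 '' S p.2)) (interior (f q.1 '' S q.2))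
      rw [h1]
      exact disjoint_image (hdis _ _ h2) _
    · have h2 : ∃ j, p.1 j ≠ q.1 j := by
        by_contra hcon
        push Not at hcon
        exact h1 (funext hcon)
      have key : ∀ p q : (Fin n → Fin m) × Fin k, (∃ j, ((p.1 j : ℕ) : ℝ) + 1 ≤ ((q.1 j : ℕ) : ℝ)) →
          Disjoint (interior (f p.1 '' S p.2)) (interior (f q.1 '' S q.2)) := by
        rintro p q ⟨j, hj⟩
        rw [Set.disjoint_left]
        intro x hx hx'
        have hO : IsOpen (interior (f p.1 '' S p.2) ∩ interior (f q.1 '' S q.2)) :=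
          isOpen_interior.inter isOpen_interior
        obtain ⟨δ, hδ, hball⟩ := Metric.isOpen_iff.1 hO x ⟨hx, hx'⟩
        have hmem : ∀ s : ℝ, |s| < δ → x + EuclideanSpace.single j s ∈
            interior (f p.1 '' S p.2) ∩ interior (f q.1 '' S q.2) := by
          intro s hs
          apply hball
          rw [Metric.mem_ball, dist_eq_norm, add_sub_cancel_left, PiLp.norm_single,
            Real.norm_eq_abs]
          exact hs
        have h3 := (hcoord p.1 p.2 _ (interior_subset (hmem (δ / 2) (by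
          rw [abs_of_pos (by linarith)]; linarith)).1) j).2
        have h4 := (hcoord q.1 q.2 _ (interior_subset (hmem 0 (by
          rw [abs_zero]; exact hδ)).2) j).1
        simp only [PiLp.add_apply, PiLp.single_apply, if_true] at h3 h4
        linarith
      obtain ⟨j, hj⟩ := h2
      rcases lt_or_gt_of_ne (fun h : (p.1 j : ℕ) = (q.1 j : ℕ) => hj (Fin.ext h)) with h3 | h3
      · exact key p q ⟨j, by exact_mod_cast h3⟩
      · exact (key q p ⟨j, by exact_mod_cast h3⟩).symm

lemma log_le (n : ℕ) (hn : 512 ≤ n) : Real.log (n + 1) ≤ n / 64 := by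
  have hn' : (512 : ℝ) ≤ n := by exact_mod_cast hn
  have h1 : Real.log (n + 1) = Real.log 512 + Real.log ((n + 1) / 512) := by
    rw [← Real.log_mul (by norm_num) (by positivity)]
    congr 1
    field_simp
  have h2 : Real.log 512 = 9 * Real.log 2 := by
    rw [show (512 : ℝ) = 2 ^ 9 by norm_num, Real.log_pow]
    norm_num
  have h3 := Real.log_two_lt_d9
  have h4 : Real.log (((n : ℝ) + 1) / 512) ≤ (n + 1) / 512 - 1 :=
    Real.log_le_sub_one_of_pos (by positivity)
  rw [h1, h2]
  linarith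

lemma numbers (n : ℕ) (hn : 512 ≤ n) :
    4 * Real.sqrt (Real.log (n + 1) / n) ≤ 1 / 2 ∧
      Real.exp (-(9 * Real.sqrt (n * Real.log (n + 1)))) ≤
        (1 - 4 * Real.sqrt (Real.log (n + 1) / n)) ^ n / 4 := by
  have hn' : (512 : ℝ) ≤ n := by exact_mod_cast hn
  have hn0 : (0 : ℝ) < n := by linarith
  have hlog0 : 0 ≤ Real.log (n + 1) := Real.log_nonneg (by linarith)
  have hlog := log_le n hn
  have h1 : 4 * Real.sqrt (Real.log (n + 1) / n) ≤ 1 / 2 := by
    have h2 : Real.sqrt (Real.log (n + 1) / n) ≤ Real.sqrt (1 / 64) := by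
      apply Real.sqrt_le_sqrt
      rw [div_le_iff₀ hn0]
      linarith
    rw [show (1 / 64 : ℝ) = (1 / 8) ^ 2 by norm_num, Real.sqrt_sq (by norm_num)] at h2
    linarith
  refine ⟨h1, ?_⟩
  set t : ℝ := 4 * Real.sqrt (Real.log (n + 1) / n) with ht
  have ht0 : 0 ≤ t := by positivity
  have h2 : Real.exp (-(2 * t)) ≤ 1 - t := by
    have h3 : Real.exp (2 * t) ≥ 1 + 2 * t := by linarith [Real.add_one_le_exp (2 * t)]
    rw [Real.exp_neg]
    have h4 : (Real.exp (2 * t))⁻¹ ≤ (1 + 2 * t)⁻¹ := inv_anti₀ (by linarith) h3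
    refine h4.trans ?_
    rw [inv_le_iff_one_le_mul₀ (by linarith)]
    nlinarith
  have h5 : (n : ℝ) * t = 4 * Real.sqrt (n * Real.log (n + 1)) := by
    have h6 : Real.sqrt (n * Real.log (n + 1)) = n * Real.sqrt (Real.log (n + 1) / n) := by
      rw [show (n : ℝ) * Real.log (n + 1) = n ^ 2 * (Real.log (n + 1) / n) by field_simp,
        Real.sqrt_mul (by positivity), Real.sqrt_sq hn0.le]
    rw [h6, ht]
    ring
  have h7 : Real.exp (-(8 * Real.sqrt (n * Real.log (n + 1)))) ≤ (1 - t) ^ n := by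
    have h8 := pow_le_pow_left₀ (Real.exp_pos _).le h2 n
    rw [← Real.exp_nat_mul] at h8
    have h9 : (n : ℝ) * -(2 * t) = -(8 * Real.sqrt (n * Real.log (n + 1))) := by
      linear_combination (-2) * h5
    rwa [h9] at h8
  have h10 : Real.exp (-Real.sqrt (n * Real.log (n + 1))) ≤ 1 / 4 := by
    have h11 : (3 : ℝ) ≤ Real.sqrt (n * Real.log (n + 1)) := by
      apply Real.le_sqrt_of_sq_le
      have h12 : (1 : ℝ) ≤ Real.log (n + 1) := by
        rw [Real.le_log_iff_exp_le (by linarith)]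
        have := Real.exp_one_lt_d9
        linarith
      nlinarith
    have h13 : Real.exp (-Real.sqrt (n * Real.log (n + 1))) ≤ Real.exp (-3) :=
      Real.exp_le_exp.2 (by linarith)
    refine h13.trans ?_
    rw [Real.exp_neg, inv_le_comm₀ (Real.exp_pos _) (by norm_num)]
    have := Real.add_one_le_exp (3 : ℝ)
    norm_num at this ⊢
    exact this
  have h14 : -(9 * Real.sqrt (n * Real.log (n + 1))) =
      -(8 * Real.sqrt (n * Real.log (n + 1))) + -Real.sqrt (n * Real.log (n + 1)) := by ring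
  rw [h14, Real.exp_add]
  calc Real.exp (-(8 * Real.sqrt (n * Real.log (n + 1)))) *
        Real.exp (-Real.sqrt (n * Real.log (n + 1))) ≤ (1 - t) ^ n * (1 / 4) :=
        mul_le_mul h7 h10 (Real.exp_pos _).le (pow_nonneg (by linarith) n)
    _ = (1 - t) ^ n / 4 := by ring

/-- **Main theorem.** For `n ≥ 512` the largest number `N(n)` of unit regular simplices packed in the
unit cube satisfies `exp (-9 √(n log (n+1))) D(n) ≤ N(n) ≤ D(n)`, where `D(n)` is the upper limit,
as `L → ∞`, of the largest number of unit regular simplices per unit volume in packings of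
`[0,L]^n`. -/
theorem result : ∀ n : ℕ, 512 ≤ n →
    (∀ d : ℝ, HasDensity n d → ∃ k : ℕ, Packable n 1 k ∧
      Real.exp (-(9 * Real.sqrt (n * Real.log (n + 1)))) * d ≤ k) ∧
    (∀ k : ℕ, Packable n 1 k → HasDensity n k) := by
  intro n hn
  have hn0 : 0 < n := by omega
  have hnR : (0 : ℝ) < n := by exact_mod_cast hn0
  obtain ⟨ht, hexp⟩ := numbers n hn
  constructor
  · intro d hd
    rcases le_or_gt d 0 with hd0 | hd0
    · refine ⟨0, packable_zero n 1, ?_⟩
      have := mul_nonpos_of_nonneg_of_nonpos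
        (Real.exp_pos (-(9 * Real.sqrt (n * Real.log (n + 1))))).le hd0
      simpa using this
    obtain ⟨L, hL, k, hk, hdk⟩ := hd (2 * n * Real.sqrt n)
    have hs : 0 < Real.sqrt n := Real.sqrt_pos.2 hnR
    have hLpos : 0 < L := lt_of_lt_of_le (by positivity) hL
    obtain ⟨k', hk', hkk⟩ := main n hn0 L hLpos.le k hk (by linarith)
    refine ⟨k', hk', le_trans ?_ hkk⟩
    set t : ℝ := 4 * Real.sqrt (Real.log (n + 1) / n) with htdef
    have h1t : 0 < 1 - t := by linarith
    -- `(L + √n)^n ≤ 2 L^n`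
    have h1 : (L + Real.sqrt n) ^ n ≤ 2 * L ^ n := by
      have h2 : L + Real.sqrt n ≤ L * Real.exp (1 / (2 * n)) := by
        have h3 := Real.add_one_le_exp (1 / (2 * (n : ℝ)))
        have h4 : L * (1 / (2 * n) + 1) ≤ L * Real.exp (1 / (2 * n)) :=
          mul_le_mul_of_nonneg_left h3 hLpos.le
        have h5 : Real.sqrt n ≤ L * (1 / (2 * n)) := by
          rw [mul_one_div, le_div_iff₀ (by positivity)]
          linarith
        linarith
      have h6 := pow_le_pow_left₀ (by positivity) h2 n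
      rw [mul_pow, ← Real.exp_nat_mul] at h6
      have h7 : (n : ℝ) * (1 / (2 * n)) = 1 / 2 := by field_simp
      rw [h7] at h6
      have h8 : Real.exp (1 / 2) ≤ 2 := by
        have h9 := Real.exp_one_lt_d9
        have h10 : Real.exp (1 / 2) ^ 2 = Real.exp 1 := by
          rw [← Real.exp_nat_mul]
          norm_num
        nlinarith [Real.exp_pos (1 / 2)]
      have h11 : L ^ n * Real.exp (1 / 2) ≤ L ^ n * 2 :=
        mul_le_mul_of_nonneg_left h8 (pow_pos hLpos n).le
      linarith
    have hV : 0 < (L + Real.sqrt n) ^ n := by positivity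
    rw [le_div_iff₀ hV]
    have hp : 0 < (1 - t) ^ n := pow_pos h1t n
    calc Real.exp (-(9 * Real.sqrt (n * Real.log (n + 1)))) * d * (L + Real.sqrt n) ^ n
        ≤ ((1 - t) ^ n / 4) * d * (2 * L ^ n) := by
          refine mul_le_mul (mul_le_mul_of_nonneg_right hexp hd0.le) h1 hV.le ?_
          positivity
      _ = (1 - t) ^ n / 2 * (d * L ^ n) := by ring
      _ ≤ (1 - t) ^ n / 2 * k := mul_le_mul_of_nonneg_left hdk (by positivity)
      _ = k / 2 * (1 - t) ^ n := by ring
  · intro k hk L₀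
    refine ⟨(⌈L₀⌉₊ : ℕ), Nat.le_ceil _, (⌈L₀⌉₊ : ℕ) ^ n * k, packable_grid n hn0 k _ hk, ?_⟩
    push_cast
    rw [mul_comm]

end Pool.Agent.Results.MP_6c3b49_co.CubeReduction
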