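import Pool.Agent.Helper38.SX.Vol

/-!
# Packing unit regular simplices in the unit cube: a lower bound of the order of the volume bound

For every `n ≥ 3` the unit cube `[0,1]^n` contains a packing of at least
`(1 - 2/√(n+1))^n · n! · √(2^n/(n+1)) / 4^n` regular `n`-simplices of edge `1`
(the volume upper bound is `n! · √(2^n/(n+1))`).
-/

open MeasureTheory Set
open scoped ENNReal

namespace Pool.Agent.Results.MP_6c3b49_co.GrowthBound

/-- The unit cube `[0,1]^n` in Euclidean `n`-space. -/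
def unitCube (n : ℕ) : Set (EuclideanSpace ℝ (Fin n)) := {x | ∀ i, 0 ≤ x i ∧ x i ≤ 1}

/-- `S` is a regular `n`-simplex of edge `1` in Euclidean `n`-space: the convex hull of `n+1`
points whose pairwise distances all equal `1`. -/
def IsUnitRegularSimplex {n : ℕ} (S : Set (EuclideanSpace ℝ (Fin n))) : Prop :=
  ∃ v : Fin (n + 1) → EuclideanSpace ℝ (Fin n),
    (∀ i j, i ≠ j → dist (v i) (v j) = 1) ∧ S = convexHull ℝ (range v)

/-- There is a packing of `k` regular `n`-simplices of edge `1` in the unit cube: each is contained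
in the cube and their interiors are pairwise disjoint. The number `N(n)` of the problem is the
largest `k` with `Packable n k`. -/
def Packable (n k : ℕ) : Prop :=
  ∃ S : Fin k → Set (EuclideanSpace ℝ (Fin n)),
    (∀ i, IsUnitRegularSimplex (S i)) ∧ (∀ i, S i ⊆ unitCube n) ∧
      ∀ i j, i ≠ j → Disjoint (interior (S i)) (interior (S j))

open Pool.Agent.Helper38.SX in
/-- vertex `a` of the simplex translated by `x` -/
noncomputable def vert (n : ℕ) (x : Fin n → ℝ) (a : Fin (n + 1)) : EuclideanSpace ℝ (Fin n) :=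
  WithLp.toLp 2 (x + u n a)

open Pool.Agent.Helper38.SX in
lemma dist_vert (n : ℕ) (x : Fin n → ℝ) (a b : Fin (n + 1)) (hab : a ≠ b) :
    dist (vert n x a) (vert n x b) = 1 := by
  rw [EuclideanSpace.dist_eq]
  have h1 : ∑ i, dist ((vert n x a) i) ((vert n x b) i) ^ 2 = 1 := by
    have h2 : ∀ i, dist ((vert n x a) i) ((vert n x b) i) ^ 2 =
        u n a i * u n a i - u n a i * u n b i - u n b i * u n a i + u n b i * u n b i := by
      intro i
      simp only [vert, Real.dist_eq, sq_abs, Pi.add_apply]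
      ring
    rw [Finset.sum_congr rfl fun i _ => h2 i, Finset.sum_add_distrib, Finset.sum_sub_distrib,
      Finset.sum_sub_distrib, u_inner, u_inner, u_inner, u_inner]
    rw [if_pos rfl, if_neg hab, if_neg hab.symm, if_pos rfl]
    have hn : (n : ℝ) + 1 ≠ 0 := by positivity
    field_simp
    ring
  rw [h1, Real.sqrt_one]

open Pool.Agent.Helper38.SX in
lemma mem_hull (n : ℕ) (x : Fin n → ℝ) (z : EuclideanSpace ℝ (Fin n))
    (hz : z ∈ convexHull ℝ (range (vert n x))) :
    ∃ w : Fin (n + 1) → ℝ, (∀ a, 0 ≤ w a) ∧ ∑ a, w a = 1 ∧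
      ∀ i, z i = x i + ∑ a, w a * u n a i := by
  rw [convexHull_range_eq_exists_affineCombination] at hz
  obtain ⟨s, w, hw0, hw1, hz⟩ := hz
  rw [Finset.affineCombination_eq_linear_combination _ _ _ hw1] at hz
  refine ⟨fun a => if a ∈ s then w a else 0, fun a => by dsimp only; split_ifs with h; exacts [hw0 a h, le_rfl],
    by simpa using hw1, fun i => ?_⟩
  have h1 : z i = ∑ a ∈ s, w a * (x i + u n a i) := by
    rw [← hz]
    simp [vert, mul_add]
  rw [h1]
  simp_rw [mul_add, Finset.sum_add_distrib, ← Finset.sum_mul, hw1, one_mul, ite_mul, zero_mul]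
  simp

open Pool.Agent.Helper38.SX in
lemma hull_subset (n : ℕ) (x : Fin n → ℝ)
    (hx : x ∈ Icc (fun _ : Fin n => 1 / Real.sqrt (n + 1)) (fun _ => 1 - 1 / Real.sqrt (n + 1))) :
    convexHull ℝ (range (vert n x)) ⊆ unitCube n := by
  intro z hz i
  obtain ⟨w, hw0, hw1, hz⟩ := mem_hull n x z hz
  have hb : |∑ a, w a * u n a i| ≤ 1 / Real.sqrt (n + 1) := by
    calc |∑ a, w a * u n a i| ≤ ∑ a, |w a * u n a i| := Finset.abs_sum_le_sum_abs _ _
      _ ≤ ∑ a, w a * (1 / Real.sqrt (n + 1)) := by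
          refine Finset.sum_le_sum fun a _ => ?_
          rw [abs_mul, abs_of_nonneg (hw0 a)]
          exact mul_le_mul_of_nonneg_left (abs_u_le n a i) (hw0 a)
      _ = 1 / Real.sqrt (n + 1) := by rw [← Finset.sum_mul, hw1, one_mul]
  have h1 := hx.1 i
  have h2 := hx.2 i
  simp only at h1 h2
  rw [hz i]
  constructor <;> linarith [(abs_le.1 hb).1, (abs_le.1 hb).2]

open Pool.Agent.Helper38.SX in
lemma disjoint_hull (n : ℕ) (x y : Fin n → ℝ) (h : y - x ∉ D n) :
    Disjoint (convexHull ℝ (range (vert n x))) (convexHull ℝ (range (vert n y))) := by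
  rw [Set.disjoint_left]
  intro z hx hy
  apply h
  obtain ⟨w, hw0, hw1, hz⟩ := mem_hull n x z hx
  obtain ⟨w', hw0', hw1', hz'⟩ := mem_hull n y z hy
  refine ⟨fun j => w j.succ - w' j.succ, ?_, ?_⟩
  · show ∑ j : Fin n, |w j.succ - w' j.succ| ≤ 2
    have h1 : ∑ j : Fin n, |w j.succ - w' j.succ| ≤ ∑ a, |w a - w' a| := by
      rw [Fin.sum_univ_succ (fun a => |w a - w' a|)]
      linarith [abs_nonneg (w 0 - w' 0)]
    have h2 : ∑ a, |w a - w' a| ≤ ∑ a, (w a + w' a) :=
      Finset.sum_le_sum fun a _ => (abs_sub _ _).trans (by rw [abs_of_nonneg (hw0 a), abs_of_nonneg (hw0' a)])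
    rw [Finset.sum_add_distrib, hw1, hw1'] at h2
    linarith
  · funext i
    rw [Matrix.toLin'_apply]
    simp only [Matrix.mulVec, dotProduct, A, Pi.sub_apply]
    have e : x i + ∑ a, w a * u n a i = y i + ∑ a, w' a * u n a i := by rw [← hz i, ← hz' i]
    have hs : ∑ a, (w a - w' a) * u n a i = y i - x i := by
      simp_rw [sub_mul, Finset.sum_sub_distrib]; linarith
    have hs0 : ∑ a, (w a - w' a) = 0 := by rw [Finset.sum_sub_distrib, hw1, hw1']; ring
    rw [Fin.sum_univ_succ] at hs hs0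
    have : ∑ j : Fin n, (u n j.succ i - u n 0 i) * (w j.succ - w' j.succ) =
        ∑ j : Fin n, (w j.succ - w' j.succ) * u n j.succ i -
          u n 0 i * ∑ j : Fin n, (w j.succ - w' j.succ) := by
      rw [Finset.mul_sum, ← Finset.sum_sub_distrib]
      exact Finset.sum_congr rfl fun j _ => by ring
    rw [this]
    have h3 : ∑ j : Fin n, (w j.succ - w' j.succ) = -(w 0 - w' 0) := by linarith
    rw [h3]
    linarith

open Pool.Agent.Helper38.SX in
lemma exists_translates (n : ℕ) (Q : Set (Fin n → ℝ)) (k : ℕ)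
    (h : ((k - 1 : ℕ) : ℝ≥0∞) * volume (D n) < volume Q) :
    ∃ x : Fin k → (Fin n → ℝ), (∀ i, x i ∈ Q) ∧ ∀ i j, i < j → x j - x i ∉ D n := by
  induction k with
  | zero => exact ⟨fun i => i.elim0, fun i => i.elim0, fun i => i.elim0⟩
  | succ k ih =>
    have hk : ((k - 1 : ℕ) : ℝ≥0∞) * volume (D n) < volume Q := by
      refine lt_of_le_of_lt ?_ h
      gcongr
      simp
    obtain ⟨x, hx, hxx⟩ := ih hk
    obtain ⟨y, hy, hyx⟩ := greedy n Q k x (by simpa using h)
    refine ⟨Fin.snoc (α := fun _ => Fin n → ℝ) x y, ?_, ?_⟩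
    · intro i
      refine Fin.lastCases ?_ (fun i => ?_) i
      · simpa using hy
      · simpa using hx i
    · intro i j
      refine Fin.lastCases ?_ (fun j => ?_) j
      · refine Fin.lastCases ?_ (fun i => ?_) i
        · intro h; exact absurd h (lt_irrefl _)
        · intro _; simpa using hyx i
      · refine Fin.lastCases ?_ (fun i => ?_) i
        · intro h; exact absurd h (not_lt.2 (Fin.le_last _))
        · intro h; simpa using hxx i j (by simpa using h)

open Pool.Agent.Helper38.SX in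
theorem packable_of_lt (n k : ℕ)
    (h : ((k - 1 : ℕ) : ℝ≥0∞) * volume (D n) <
      volume (Icc (fun _ : Fin n => 1 / Real.sqrt (n + 1)) (fun _ => 1 - 1 / Real.sqrt (n + 1)))) :
    Packable n k := by
  obtain ⟨x, hx, hxx⟩ := exists_translates n _ k h
  refine ⟨fun i => convexHull ℝ (range (vert n (x i))), fun i => ⟨vert n (x i), dist_vert n (x i), rfl⟩,
    fun i => hull_subset n (x i) (hx i), ?_⟩
  have key : ∀ i j, i < j → Disjoint (interior (convexHull ℝ (range (vert n (x i)))))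
      (interior (convexHull ℝ (range (vert n (x j))))) := fun i j hij =>
    (disjoint_hull n (x i) (x j) (hxx i j hij)).mono interior_subset interior_subset
  intro i j hij
  rcases lt_or_gt_of_ne hij with h | h
  · exact key i j h
  · exact (key j i h).symm

open Pool.Agent.Helper38.SX in
/-- **Main theorem.** -/
theorem result :
    ∀ n : ℕ, 3 ≤ n → ∃ k : ℕ, Packable n k ∧
      (1 - 2 / Real.sqrt (n + 1)) ^ n * (n.factorial * Real.sqrt (2 ^ n / (n + 1))) / 4 ^ n ≤ k := by
  intro n hn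
  set V : ℝ := |(A n).det| * (4 ^ n / n.factorial) with hV
  have hdet : |(A n).det| = Real.sqrt ((n + 1) / 2 ^ n) := by
    rw [← Real.sqrt_sq_eq_abs, det_sq]
    congr 1
    rw [one_div, inv_pow]; field_simp
  have hdpos : 0 < |(A n).det| := by rw [hdet]; positivity
  have hVpos : 0 < V := by rw [hV]; positivity
  have hN : (0 : ℝ) < Real.sqrt (n + 1) := by positivity
  have hsq : 2 ≤ Real.sqrt ((n : ℝ) + 1) := by
    apply Real.le_sqrt_of_sq_le
    have : (3 : ℝ) ≤ n := by exact_mod_cast hn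
    linarith
  have hr : 0 ≤ 1 - 2 / Real.sqrt ((n : ℝ) + 1) := by
    have : 2 / Real.sqrt ((n : ℝ) + 1) ≤ 1 := by rw [div_le_one hN]; exact hsq
    linarith
  have hQ : volume (Icc (fun _ : Fin n => 1 / Real.sqrt ((n : ℝ) + 1)) (fun _ => 1 - 1 / Real.sqrt ((n : ℝ) + 1))) =
      ENNReal.ofReal ((1 - 2 / Real.sqrt ((n : ℝ) + 1)) ^ n) := by
    rw [Real.volume_Icc_pi]
    simp only [Finset.prod_const, Finset.card_univ, Fintype.card_fin]
    rw [← ENNReal.ofReal_pow (by
      have : 1 / Real.sqrt ((n : ℝ) + 1) + 1 / Real.sqrt ((n : ℝ) + 1) = 2 / Real.sqrt ((n : ℝ) + 1) := by ring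
      linarith)]
    congr 2
    ring
  -- choose `k = ⌈vol Q / V⌉`
  set t : ℝ := (1 - 2 / Real.sqrt ((n : ℝ) + 1)) ^ n / V with ht
  have ht0 : 0 ≤ t := by rw [ht]; positivity
  refine ⟨⌈t⌉₊, ?_, ?_⟩
  · rcases Nat.eq_zero_or_pos ⌈t⌉₊ with h0 | h0
    · rw [h0]
      exact ⟨fun i => i.elim0, fun i => i.elim0, fun i => i.elim0, fun i => i.elim0⟩
    · apply packable_of_lt
      rw [hQ, volume_D n (by omega), ← hV]
      have h1 : ((⌈t⌉₊ - 1 : ℕ) : ℝ) < t := by
        have := Nat.ceil_lt_add_one ht0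
        rw [Nat.cast_sub (by omega)]
        push_cast
        linarith
      have h2 : ((⌈t⌉₊ - 1 : ℕ) : ℝ≥0∞) = ENNReal.ofReal ((⌈t⌉₊ - 1 : ℕ) : ℝ) := by
        rw [ENNReal.ofReal_natCast]
      rw [h2, ← ENNReal.ofReal_mul (Nat.cast_nonneg _)]
      apply (ENNReal.ofReal_lt_ofReal_iff_of_nonneg (by positivity)).2
      rw [ht, lt_div_iff₀ hVpos] at h1
      exact h1
  · refine le_trans (le_of_eq ?_) (Nat.le_ceil t)
    rw [ht, hV, hdet]
    have hs : Real.sqrt (2 ^ n / ((n : ℝ) + 1)) = (Real.sqrt (((n : ℝ) + 1) / 2 ^ n))⁻¹ := by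
      rw [← Real.sqrt_inv, inv_div]
    rw [hs]
    have hs0 : Real.sqrt (((n : ℝ) + 1) / 2 ^ n) ≠ 0 := by positivity
    have hf : (n.factorial : ℝ) ≠ 0 := by positivity
    field_simp

end Pool.Agent.Results.MP_6c3b49_co.GrowthBound
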