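import Pool.Agent.Helper14.TET.Count
import Pool.Agent.Helper14.TET.Lower
import Pool.Agent.Helper14.TET.Plane

/-!
# Packing unit regular simplices in the unit cube: the values `N(2) = 1` and `N(3) = 3`

The upper bound `N(3) <= 3`: every regular tetrahedron of edge `1` contained in the cube
`[0,1]^3` has at least two of the six points `(1/2,1/2,1/2) +- (23/250) e_i` in its interior.
The lower bound: three tetrahedra which have an edge in common with the cube each (three pairwise
skew edges of the cube) and whose opposite edges pass through the centre of the cube.
-/

namespace Pool.Agent.Results.MP_6c3b49_co.SmallDimensions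

open Pool.Agent.Helper14.TET

/-- **Main theorem.** `N(2) = 1` and `N(3) = 3`. -/
theorem result :
    (Packable 2 1 ∧ ∀ k : ℕ, Packable 2 k → k ≤ 1) ∧
      (Packable 3 3 ∧ ∀ k : ℕ, Packable 3 k → k ≤ 3) :=
  ⟨Plane.planeOne, packable_three, packable_three_le⟩

end Pool.Agent.Results.MP_6c3b49_co.SmallDimensions
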